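import Pool.Agent.Lib.MP_33b3f9_ag.MG.CL.E2
import Pool.Agent.Lib.MP_33b3f9_ag.M8.CL.Bd

/-! The stabiliser of the colour has bounded denominators. -/

set_option autoImplicit false

namespace MG.CL

open M4 M4.CL Matrix Filter Topology M8.CL MG.E3

variable {σ ι : Type} [Fintype ι] [DecidableEq ι] {m : ℕ} {A : Set (RM ι)}
  {E : Type} [NormedAddCommGroup E] [NormedSpace ℂ E]

/-- Irreducibility on the factors passes to a set that contains a conjugate. -/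
theorem irrP_conj {G H : Set (RM ι)} {ep : σ → RM ι} (hi : IrrP G A ep) (g : GD A m)
    (he : ∀ s, mx g.1 * ep s = ep s * mx g.1)
    (h : ∀ x ∈ G, mx g.1⁻¹ * x * mx g.1 ∈ H) : IrrP H A ep := by
  intro k hk hs s X hX h0 Y hY
  have e := cx_inv g.1
  have e' := mul_eq_one_comm.1 e
  have e1 : ∀ X : M8.E3.MC ι, M8.E3.cx (mx g.1⁻¹) * (M8.E3.cx (mx g.1) * X) = X := fun X => by
    rw [← mul_assoc, e, one_mul]
  have e2 : ∀ X : M8.E3.MC ι, M8.E3.cx (mx g.1) * (M8.E3.cx (mx g.1⁻¹) * X) = X := fun X => by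
    rw [← mul_assoc, e', one_mul]
  have e3 : ∀ X : M8.E3.MC ι, M8.E3.cx (ep s) * (M8.E3.cx (mx g.1) * X * M8.E3.cx (mx g.1⁻¹)) =
      M8.E3.cx (mx g.1) * (M8.E3.cx (ep s) * X) * M8.E3.cx (mx g.1⁻¹) := fun X => by
    rw [← mul_assoc, ← mul_assoc, ← mul_assoc, ← M8.E3.cx_mul, ← M8.E3.cx_mul, he]
  have hj : Function.Injective
      (LinearMap.mulLeftRight ℂ (M8.E3.cx (mx g.1), M8.E3.cx (mx g.1⁻¹))) := fun X Y hXY => by
    have h1 := congrArg (fun Z => M8.E3.cx (mx g.1⁻¹) * Z * M8.E3.cx (mx g.1)) hXY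
    simpa only [LinearMap.mulLeftRight_apply, mul_assoc, e, e1, mul_one] using h1
  obtain ⟨Z, hZ, h2⟩ := hi (k.map (LinearMap.mulLeftRight ℂ
      (M8.E3.cx (mx g.1), M8.E3.cx (mx g.1⁻¹))))
    (by
      rintro _ ⟨X, hX, rfl⟩
      exact M8.CL.gC_conj g (hk hX))
    (by
      rintro x hx x' hxx _ ⟨X, hX, rfl⟩
      refine ⟨_, hs _ (h x hx) (mx g.1⁻¹ * x' * mx g.1) ?_ X hX, ?_⟩
      · rw [mul_assoc, mul_assoc, ← mul_assoc (mx g.1), ← mul_assoc (mx g.1), mx_inv, one_mul,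
          ← mul_assoc x, hxx, one_mul, mul_eq_one_comm.1 (mx_inv g.1)]
      · simp only [LinearMap.mulLeftRight_apply, M8.E3.cx_mul, mul_assoc, e', e2, mul_one])
    s _ ⟨X, hX, rfl⟩ (fun h1 => h0 (hj (by
      rw [map_zero]
      exact (e3 X).symm.trans h1))) _ (M8.CL.gC_conj g hY)
  exact hj (h2.trans (e3 Y)) ▸ hZ

variable {V : Germ ι E}

theorem con_irr {S : Setup (GD A m) (CX A)} (h : Con S V) (g₀ : GD A m)
    {G : Subgroup (symplecticGroup ι ℤ)} (hv : ∀ g ∈ G, Tf V (mx g₀.1) g)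
    (hG : ∀ g ∈ G, ∃ x : GD A m, mx x.1 = zr g.1) {ep : σ → RM ι}
    (he : ∀ s, mx g₀.1 * ep s = ep s * mx g₀.1) (hi : IrrP (imG G) A ep) :
    IrrP (DM S) A ep := by
  refine irrP_conj hi g₀ he ?_
  rintro _ ⟨g, hg, rfl⟩
  obtain ⟨x, hx⟩ := hG g hg
  refine ⟨g₀⁻¹ * x * g₀, ⟨h.conj_mem g₀ x hv hg hx, ?_⟩, ?_⟩
  · have h1 := SpX_conj g₀⁻¹ (x := x) (mem_SpX.2 (hx ▸ (sim_zr_iff _).2 g.2))
    rwa [inv_inv] at h1
  · change mx g₀.1⁻¹ * mx x.1 * mx g₀.1 = _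
    rw [hx]

theorem con_bounded [Fintype σ] {a b : ZM ι} (Φ : Fr σ a b)
    {S : Setup (GD {zr a, zr b} m) (CX {zr a, zr b})} (h : Con S V) (hm : m ≠ 0) {n : ℕ}
    (hq : S.Lv n ≤ S.Del) (hi : IrrP (DM S) {zr a, zr b} Φ.ep) {k : ℕ} {f : HH ι → ℂ}
    (hf : f ∈ MF ι (8 * k)) {x : CX {zr a, zr b}} (h0 : f x.1.t ≠ 0)
    (hs : S.MS k (res _ (lift k f))) (hI : res _ (lift k f) ∈ S.I) :
    ∃ j : ℕ, ∀ g ∈ DM S, IntM ((m : ℝ) ^ j • g) := by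
  by_contra hn
  have hB : M8.E3.Big a b (32 * m ^ n) (DM S) :=
    ⟨DM_sim, DM_inv, fun g hg g' hg' => (DM S).mul_mem hg hg',
      fun g hg => DM_comm g hg _ (Or.inl rfl), fun g hg => DM_comm g hg _ (Or.inr rfl),
      fun γ β h1 h2 h3 h4 => by
        have hs := (sim_zr_iff γ).2 h1
        obtain ⟨y, hy⟩ := exists_gd (m := m) (β := ((4 * m ^ n : ℕ) : ℤ) • β) (M := 1) one_pos
          (one_dvd m) (by simpa using hs) (by
            rw [h2, smul_smul]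
            congr 2
            push_cast
            ring) h3 h4
        refine ⟨y, ⟨hq ?_, mem_SpX.2 (hy ▸ hs)⟩, hy⟩
        rw [h.Lv]
        exact mem_LvD.2 ⟨hy ▸ hs, β, by rw [hy, h2]⟩⟩
  obtain ⟨A⟩ := Φ.exists_av
  have hN : M8.E3.ND (DM S : Set (RM ι)) := nd hB A (by positivity)
    (fun g hg => (DM_cong g hg).intM) fun j => by
      by_contra hc
      exact hn ⟨j, fun g hg => by_contra fun h => hc ⟨g, hg, h⟩⟩
  have hO : M8.E3.Orb (DM S : Set (RM ι)) {w | ∃ g ∈ DM S, w = act g S.a.1.t.1} :=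
    ⟨DM_sim, DM_inv, by
      rintro _ ⟨g, hg, rfl⟩
      exact inH_act (DM_sim g hg) one_pos S.a.1.t.2, by
      rintro g hg _ ⟨g', hg', rfl⟩
      exact ⟨g * g', (DM S).mul_mem hg hg',
        (act_mul (den_det_ne_zero (DM_sim g' hg') one_pos S.a.1.t.2) (den_det_ne_zero
          (DM_sim g hg) one_pos (inH_act (DM_sim g' hg') one_pos S.a.1.t.2))).symm⟩⟩
  obtain ⟨F, hF, hF'⟩ := x_hol hf
  refine h0 ?_
  rw [hF']
  refine lim_fix (z := S.a.1.t.1) Φ hO DM_comm hN (fun g hg => ?_) hi ?_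
    ⟨1, (DM S).one_mem, (act_one _).symm⟩ x.1.t.2 x.2 hF ?_
  · obtain ⟨j, hj⟩ := (DM_cong g hg).intM
    exact ⟨m ^ j, pow_ne_zero j hm, by rwa [Nat.cast_pow]⟩
  · rintro _ ⟨_, ⟨δ, hδ, rfl⟩, rfl⟩
    have h1 := cst_smul δ S.a
    rwa [show (δ.1 • S.a.1).t.1 = act (mx δ.1) S.a.1.t.1 from aH_val hδ.2 one_pos _] at h1
  rintro _ ⟨_, ⟨δ, hδ, rfl⟩, rfl⟩
  have h1 := S.ev _ ((hδ.1 k _ hs).2 hI)
  have h2 : S.a.1.l = 1 := by rw [h.a]; rfl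
  change (S.a.1.l / wt (mx δ.1) S.a.1.t.1) ^ k * f (aH (mx δ.1) S.a.1.t) = 0 at h1
  have h3 : Sim (mx δ.1) 1 := hδ.2
  rw [hF', aH_val h3 one_pos, h2] at h1
  exact (mul_eq_zero.1 h1).resolve_left
    (pow_ne_zero _ (div_ne_zero one_ne_zero (M4.CL.wt_ne_zero h3 one_pos _)))

end MG.CL
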