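import Mathlib

/-! The theorem of Burnside for a sum of pairwise different irreducible representations. -/

set_option autoImplicit false

namespace MG.CL

variable {k V Γ σ : Type} [Field k] [IsAlgClosed k] [AddCommGroup V] [Module k V]
  [FiniteDimensional k V] [Monoid Γ] [Fintype σ] {ρ : Γ →* Module.End k V}
  {e : σ → Module.End k V}

omit [Fintype σ] in
theorem dens_end (he : ∀ s, e s * e s = e s) (hc : ∀ s g, Commute (e s) (ρ g))
    (h : ∀ W : Submodule k V, (∀ g, ∀ x ∈ W, ρ g x ∈ W) → ∀ s, ∀ x ∈ W, e s x ≠ 0 →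
      ∀ y, e s y ∈ W) {φ : Module.End k V} (hφ : ∀ g, Commute φ (ρ g)) (s : σ) :
    ∃ c : k, φ * e s = c • e s := by
  have he' : ∀ y, e s (e s y) = e s y := fun y => LinearMap.congr_fun (he s) y
  by_cases h0 : e s = 0
  · exact ⟨0, by simp [h0]⟩
  have : Nontrivial (LinearMap.range (e s)) :=
    Submodule.nontrivial_iff_ne_bot.2 (mt LinearMap.range_eq_bot.1 h0)
  obtain ⟨c, hc'⟩ := Module.End.exists_eigenvalue
    ((e s * φ).restrict (p := LinearMap.range (e s)) (q := LinearMap.range (e s))
      fun x _ => ⟨φ x, rfl⟩)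
  obtain ⟨⟨_, x, rfl⟩, hx⟩ := hc'.exists_hasEigenvector
  have x0 : e s (e s x) ≠ 0 := fun h1 => hx.2 (Subtype.ext ((he' x).symm.trans h1))
  have x1 : e s (φ (e s x)) = c • e s x := congrArg Subtype.val hx.apply_eq_smul
  have k1 := h (LinearMap.ker (e s * φ * e s - c • e s)) (fun g y hy => by
    have h1 : Commute (e s * φ * e s - c • e s) (ρ g) :=
      (((hc s g).mul_left (hφ g)).mul_left (hc s g)).sub_left ((hc s g).smul_left c)
    rw [LinearMap.mem_ker, ← Module.End.mul_apply, h1.eq, Module.End.mul_apply,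
      LinearMap.mem_ker.1 hy, map_zero]) s (e s x) (by simp [he', x1]) x0
  have k2 := h (LinearMap.range (e s + (1 - e s) * φ * e s)) (by
    rintro g _ ⟨y, rfl⟩
    have h1 : Commute (e s + (1 - e s) * φ * e s) (ρ g) :=
      (hc s g).add_left ((((Commute.one_left _).sub_left (hc s g)).mul_left (hφ g)).mul_left
        (hc s g))
    exact ⟨ρ g y, LinearMap.congr_fun h1.eq y⟩) s _ ⟨x, rfl⟩ (by simpa [he'] using x0)
  refine ⟨c, LinearMap.ext fun y => ?_⟩
  obtain ⟨w, hw⟩ := k2 y
  have k3 := congrArg (e s) hw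
  have k4 := k1 y
  simp only [LinearMap.add_apply, Module.End.mul_apply, LinearMap.sub_apply, Module.End.one_apply,
    map_add, map_sub, he', sub_self, add_zero, LinearMap.mem_ker, LinearMap.smul_apply] at hw k3 k4
  rw [k3, add_eq_left, sub_eq_zero] at hw
  exact hw.trans (sub_eq_zero.1 k4)

theorem span_of_irrP (hs : ∑ s, e s = 1) (ho : ∀ s s', s ≠ s' → e s * e s' = 0)
    (hc : ∀ s g, Commute (e s) (ρ g))
    (h : ∀ W : Submodule k V, (∀ g, ∀ x ∈ W, ρ g x ∈ W) → ∀ s, ∀ x ∈ W, e s x ≠ 0 →
      ∀ y, e s y ∈ W) {f : Module.End k V} (hf : ∀ s, Commute (e s) f) :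
    f ∈ Submodule.span k (Set.range ρ) := by
  classical
  have e0 : ∀ (S : Finset σ), ∀ s ∈ S, e s * ∑ s ∈ S, e s = e s * e s := fun S s hS => by
    rw [Finset.mul_sum]
    exact Finset.sum_eq_single s (fun s' _ h => ho _ _ h.symm) (fun h => absurd hS h)
  have he : ∀ s, e s * e s = e s := fun s => by
    rw [← e0 _ s (Finset.mem_univ s), hs, mul_one]
  have hB : ∀ s, ∀ T ∈ Algebra.adjoin k (Set.range ρ), Commute (e s) T := fun s T hT =>
    Algebra.commute_of_mem_adjoin_of_forall_mem_commute hT (by rintro _ ⟨g, rfl⟩; exact hc s g)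
  have : IsSemisimpleModule (Algebra.adjoin k (Set.range ρ)) V := by
    refine (isSemisimpleModule_iff _ _).2 ⟨fun W => ?_⟩
    obtain ⟨S, hS⟩ : ∃ S : Finset σ, ∀ s, s ∈ S ↔ ∀ y, e s y ∈ W :=
      ⟨Finset.univ.filter fun s => ∀ y, e s y ∈ W,
        fun s => by rw [Finset.mem_filter, and_iff_right (Finset.mem_univ s)]⟩
    let W' : Submodule (Algebra.adjoin k (Set.range ρ)) V :=
      { carrier := {x | (∑ s ∈ S, e s) x = 0}
        zero_mem' := map_zero _
        add_mem' := fun {x y} (hx : _ = _) (hy : _ = _) => by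
          change _ = _
          rw [map_add, hx, hy, add_zero]
        smul_mem' := fun T x (hx : _ = _) => by
          change (∑ s ∈ S, e s) (T.1 x) = 0
          rw [← Module.End.mul_apply, (Commute.sum_left _ _ _ fun s _ => hB s _ T.2).eq,
            Module.End.mul_apply, hx, map_zero] }
    refine ⟨W', Submodule.disjoint_def.2 fun x hx (hx' : _ = _) => ?_,
      codisjoint_iff.2 (eq_top_iff.2 fun y _ => ?_)⟩
    · rw [← Module.End.one_apply (R := k) x, ← hs, LinearMap.sum_apply]
      refine Finset.sum_eq_zero fun s _ => by_contra fun h0 => h0 ?_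
      rw [← he, ← e0 S s ((hS s).2 (h (W.restrictScalars k) (fun g x hx =>
        W.smul_mem ⟨_, Algebra.subset_adjoin ⟨g, rfl⟩⟩ hx) s x hx h0)), Module.End.mul_apply, hx',
        map_zero]
    · refine Submodule.mem_sup.2 ⟨(∑ s ∈ S, e s) y, ?_, y - (∑ s ∈ S, e s) y, ?_,
        add_sub_cancel _ _⟩
      · rw [LinearMap.sum_apply]
        exact sum_mem fun s hs => (hS s).1 hs y
      · change _ = _
        rw [map_sub, ← Module.End.mul_apply, Finset.sum_mul,
          Finset.sum_congr rfl fun s hs => (e0 S s hs).trans (he s), sub_self]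
  let g : Module.End (Module.End (Algebra.adjoin k (Set.range ρ)) V) V :=
    { toFun := f
      map_add' := f.map_add
      map_smul' := fun φ m => by
        choose c hc' using dens_end he hc h (φ := φ.restrictScalars k) fun g =>
          LinearMap.ext fun x => φ.map_smul ⟨_, Algebra.subset_adjoin ⟨g, rfl⟩⟩ x
        have h1 : f * φ.restrictScalars k = φ.restrictScalars k * f := by
          rw [← mul_one (φ.restrictScalars k), ← hs]
          simp only [Finset.mul_sum, Finset.sum_mul, hc', mul_smul_comm, smul_mul_assoc,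
            (hf _).eq]
        exact LinearMap.congr_fun h1 m }
  obtain ⟨s, hs'⟩ := Module.Finite.fg_top (R := k) (M := V)
  obtain ⟨⟨T, h0⟩, hb⟩ := jacobson_density g s
  obtain rfl : T = f := LinearMap.ext_on hs' fun m hm => (hb m hm).symm
  have h1 : T ∈ Subalgebra.toSubmodule (Algebra.adjoin k (Set.range ρ)) := h0
  rwa [Algebra.adjoin_eq_span, ← MonoidHom.coe_mrange, Submonoid.closure_eq] at h1

end MG.CL
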