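import Pool.Agent.Lib.MP_33b3f9_ag.MG.CL.E2s
import Pool.Agent.Lib.MP_33b3f9_ag.M4.CL.E2

/-! The closure of a subgroup with irreducible adjoint action on every factor is open. -/

set_option autoImplicit false

namespace MG.CL

open M4 M4.CL Matrix M8.E3 MG.E3

variable {σ ι : Type} [Fintype ι] [DecidableEq ι] {a b : ZM ι}
  {G : Subgroup (symplecticGroup ι ℤ)}

/-- The Lie algebra is not contained in a line. -/
def Two (a b : ZM ι) : Prop := ∀ X : MC ι, ∃ Y ∈ gC {zr a, zr b}, ∀ c : ℂ, Y ≠ c • X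

theorem Cm.av (A : Av a b) {g : ZM ι} (hg : Cm a b g) (i : A.α) :
    g * A.p i = A.p i * g ∧ g * A.q i = A.q i * g := by
  have h1 := cm_iff.1 hg _ (Or.inl rfl)
  have h2 := cm_iff.1 hg _ (Or.inr rfl)
  exact ⟨zr_injective (by rw [zr_mul, zr_mul, A.cp i _ h1 h2]),
    zr_injective (by rw [zr_mul, zr_mul, A.cq i _ h1 h2])⟩

variable [Fintype σ] (Φ : Fr σ a b)

include Φ

theorem exists_ne_one (h2 : Two a b) (hC : ∀ g ∈ G, Cm a b g.1)
    (hi : IrrP (imG G) {zr a, zr b} Φ.ep) {M : ℤ} (hM : M ≠ 0) :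
    ∃ g ∈ G, ∃ β : ZM ι, β ≠ 0 ∧ g.1 = 1 + M • β := by
  by_contra hc
  push Not at hc
  have : NeZero M.natAbs := ⟨Int.natAbs_ne_zero.2 hM⟩
  have : Finite G := Finite.of_injective
    (fun g : G => g.1.1.map (Int.cast : ℤ → ZMod M.natAbs)) fun g g' h => by
      have h1 : ∀ i j, ∃ c, (g.1.1 - g'.1.1) i j = M * c := fun i j =>
        Int.natAbs_dvd.1 ((ZMod.intCast_eq_intCast_iff_dvd_sub _ _ _).1
          (congrFun (congrFun h i) j).symm)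
      choose c hc' using h1
      have h2 : g.1.1 - g'.1.1 = M • Matrix.of c := Matrix.ext hc'
      have h3 : (g'.1⁻¹ * g.1).1 = 1 + M • ((g'.1⁻¹).1 * Matrix.of c) := by
        rw [← Matrix.mul_smul, ← h2, Matrix.mul_sub, ← Submonoid.coe_mul, ← Submonoid.coe_mul,
          inv_mul_cancel, Submonoid.coe_one, add_sub_cancel]
      by_cases h4 : (g'.1⁻¹).1 * Matrix.of c = 0
      · rw [h4, smul_zero, add_zero] at h3
        exact Subtype.ext (inv_mul_eq_one.1 (Subtype.ext h3)).symm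
      · exact absurd h3 (hc _ (G.mul_mem (G.inv_mem g'.2) g.2) _ h4)
  have := Fintype.ofFinite G
  obtain ⟨S, hS⟩ : ∃ S, S = ∑ g : G, g.1.1 * g.1.1ᵀ := ⟨_, rfl⟩
  obtain ⟨A⟩ := Φ.exists_av
  obtain ⟨T, hT⟩ : ∃ T, T = ∑ i, A.p i * S * (A.q i)ᵀ := ⟨_, rfl⟩
  have h3 : ∀ g ∈ G, g.1 * (T * J ι ℤ) * (g⁻¹).1 = T * J ι ℤ := fun g hg => by
    have h3 : g.1 * S * g.1ᵀ = S := by
      rw [hS, Finset.mul_sum, Finset.sum_mul]
      refine Fintype.sum_equiv (Equiv.mulLeft (⟨g, hg⟩ : G)) _ _ fun x => ?_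
      change _ = (g.1 * x.1.1) * (g.1 * x.1.1)ᵀ
      simp only [transpose_mul, Matrix.mul_assoc]
    have h5 : g.1 * T * g.1ᵀ = T := by
      rw [hT, Finset.mul_sum, Finset.sum_mul]
      refine Finset.sum_congr rfl fun i _ => ?_
      obtain ⟨e1, e2⟩ := (hC g hg).av A i
      conv_rhs => rw [← h3, ← Matrix.mul_assoc, ← Matrix.mul_assoc, ← e1, Matrix.mul_assoc _ g.1ᵀ,
        ← transpose_mul, ← e2, transpose_mul]
      simp only [Matrix.mul_assoc]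
    rw [SymplecticGroup.coe_inv]
    calc g.1 * (T * J ι ℤ) * (-J ι ℤ * g.1ᵀ * J ι ℤ)
        = -(g.1 * T * (J ι ℤ * J ι ℤ) * g.1ᵀ * J ι ℤ) := by
          simp only [Matrix.mul_assoc, Matrix.neg_mul, Matrix.mul_neg]
      _ = _ := by rw [J_squared, Matrix.mul_neg, Matrix.mul_one, Matrix.neg_mul, Matrix.neg_mul,
          neg_neg, h5]
  have h4 : T * J ι ℤ ∈ gZ a b := by
    refine ⟨?_, hT ▸ A.ca S, hT ▸ A.cb S⟩
    have h1 : Tᵀ = T := hT ▸ A.sym S (by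
      simp only [hS, transpose_sum, transpose_mul, transpose_transpose])
    change _ + _ = _
    rw [transpose_mul, h1, J_transpose, Matrix.neg_mul, Matrix.neg_mul, Matrix.mul_assoc,
      neg_add_cancel]
  have h5 : ∀ g : ZM ι, (zr (g * gᵀ)).PosSemidef := fun g => by
    rw [zr_mul, zr_tr]
    exact posSemidef_self_mul_conjTranspose (zr g)
  obtain ⟨Y, hY, h6⟩ := h2 (cx (zr (T * J ι ℤ)))
  by_cases h7 : T * J ι ℤ = 0
  · have h8 := congrArg (· * J ι ℤ) h7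
    simp only [Matrix.mul_assoc, J_squared, Matrix.zero_mul, Matrix.mul_neg, Matrix.mul_one,
      neg_eq_zero] at h8
    have h9 := A.pos S (by
      rw [hS, zr_sum]
      exact posSemidef_sum _ fun g _ => h5 _) (hT ▸ h8)
    refine h6 0 (Matrix.ext fun i _ => False.elim ?_)
    have h10 := congrFun (congrFun (hS ▸ h9) i) i
    rw [Matrix.sum_apply, Matrix.zero_apply] at h10
    have h11 := (Finset.sum_eq_zero_iff_of_nonneg fun g _ =>
      Finset.sum_nonneg fun j _ => mul_self_nonneg _).1 h10 1 (Finset.mem_univ _)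
    change ((1 : ZM ι) * (1 : ZM ι)ᵀ) i i = 0 at h11
    simp at h11
  generalize T * J ι ℤ = X at h3 h4 h6 h7
  obtain ⟨c, hc⟩ := Submodule.mem_span_singleton.1 (show Y ∈ ℂ ∙ cx (zr X) by
    rw [← one_mul Y, ← Φ.sumC, Finset.sum_mul]
    refine sum_mem fun s _ => hi _ ((Submodule.span_singleton_le_iff_mem _ _).2 (gC_of_gZ h4)) ?_ s
      _ (Submodule.mem_span_singleton_self _) (fun h => h7 (Φ.ratZ (s := s)
        (Matrix.map_injective Complex.ofReal_injective ?_))) Y hY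
    · rintro _ ⟨g, hg, rfl⟩ g' e Z hZ
      obtain ⟨c, rfl⟩ := Submodule.mem_span_singleton.1 hZ
      obtain rfl : g' = zr (g⁻¹).1 := left_inv_eq_right_inv (mul_eq_one_comm.1 e) (zr_inv g)
      rw [mul_smul_comm, smul_mul_assoc, ← cx_mul, ← cx_mul, ← zr_mul, ← zr_mul, h3 g hg]
      exact hZ
    · exact ((cx_mul _ _).trans h).trans (Matrix.map_zero _ Complex.ofReal_zero).symm)
  exact h6 c hc.symm

omit Φ in
theorem pow_left {A : Type} [Ring A] (c : ℤ) (X : A) (i : ℕ) :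
    ∃ Y : A, (1 + c • X) ^ i = 1 + (c * i) • X + (c * c) • (X * Y) := by
  induction i with
  | zero => exact ⟨0, by simp⟩
  | succ i ih =>
    obtain ⟨Y, hY⟩ := ih
    refine ⟨Y + (i : ℤ) • X + c • (Y * X), ?_⟩
    rw [pow_succ, hY]
    simp only [add_mul, mul_add, one_mul, mul_one, smul_mul_assoc, mul_smul_comm, Nat.cast_succ,
      mul_assoc]
    module

theorem exists_tower (h2 : Two a b) (hC : ∀ g ∈ G, Cm a b g.1)
    (hi : IrrP (imG G) {zr a, zr b} Φ.ep) {p : ℕ} (hp : p ≠ 0) : ∃ X₀ : ZM ι, X₀ ≠ 0 ∧ ∀ d : ℕ,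
      ∃ g ∈ G, ∃ V : ZM ι,
        g.1 = 1 + ((32 * (p ^ 2 * p ^ d) : ℕ) : ℤ) • (X₀ * (1 + (p : ℤ) • V)) := by
  obtain ⟨h, hh, β, hb, e⟩ := exists_ne_one Φ h2 hC hi (M := 32 * p ^ 2) (by positivity)
  refine ⟨β, hb, fun d => ?_⟩
  induction d with
  | zero => exact ⟨h, hh, 0, by rw [e]; simp⟩
  | succ d ih =>
    obtain ⟨g, hg, V, h3⟩ := ih
    obtain ⟨Z, hZ⟩ := pow_left (((32 * (p ^ 2 * p ^ d) : ℕ) : ℤ)) (β * (1 + (p : ℤ) • V)) p
    refine ⟨g ^ p, G.pow_mem hg p, V + (32 * (p : ℤ) ^ d) • ((1 + (p : ℤ) • V) * Z), ?_⟩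
    rw [SubmonoidClass.coe_pow, h3, hZ]
    simp only [add_mul, mul_add, one_mul, mul_one, smul_mul_assoc, mul_smul_comm, mul_assoc]
    push_cast
    module

/-- The first term of a deep element lies in the Lie algebra, up to a deeper term. -/
theorem exists_lie {γ Y : ZM ι} (hγ : γ ∈ symplecticGroup ι ℤ)
    (hc : Cm a b γ) {t : ℤ} (ht : t ≠ 0) (h : γ = 1 + (2 * t) • Y) :
    ∃ W ∈ gZ a b, ∃ Z : ZM ι, Y = W + t • Z := by
  have ht2 : 2 * t ≠ 0 := mul_ne_zero two_ne_zero ht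
  have h1 := SymplecticGroup.mem_iff.1 hγ
  have h2 : (2 * t) • (Y * J ι ℤ + J ι ℤ * Yᵀ + (2 * t) • (Y * J ι ℤ * Yᵀ)) = 0 := by
    rw [h, transpose_add, transpose_one, transpose_smul] at h1
    simp only [add_mul, mul_add, one_mul, mul_one, smul_mul_assoc, mul_smul_comm] at h1
    rw [← sub_eq_zero] at h1
    rw [← h1]
    module
  have h3 := (smul_eq_zero.1 h2).resolve_left ht2
  have h4 : ∀ x : ZM ι, γ * x = x * γ → Y * x = x * Y := fun x hx => by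
    rw [h, add_mul, mul_add, one_mul, mul_one, smul_mul_assoc, mul_smul_comm, add_right_inj] at hx
    exact smul_right_injective _ ht2 hx
  have h5 : ∀ x y : ZM ι, xᵀ * J ι ℤ = J ι ℤ * y → Y * x = x * Y → Y * y = y * Y →
      (Y - t • (Y * J ι ℤ * Yᵀ * J ι ℤ)) * x = x * (Y - t • (Y * J ι ℤ * Yᵀ * J ι ℤ)) :=
    fun x y e1 e2 e3 => by
    have e4 := J_swap e1
    have e5 : J ι ℤ * yᵀ = x * J ι ℤ := by
      have e6 := congrArg (fun T => J ι ℤ * T * J ι ℤ) e4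
      simp only [← Matrix.mul_assoc, J_squared] at e6
      simpa only [Matrix.mul_assoc, J_squared, Matrix.neg_mul, Matrix.mul_neg, Matrix.one_mul,
        Matrix.mul_one, neg_inj] using e6.symm
    have e6 : Yᵀ * yᵀ = yᵀ * Yᵀ := by rw [← transpose_mul, ← e3, transpose_mul]
    rw [sub_mul, mul_sub, e2, smul_mul_assoc, mul_smul_comm]
    congr 2
    calc _ = Y * J ι ℤ * (Yᵀ * yᵀ) * J ι ℤ := by
          rw [Matrix.mul_assoc _ _ x, e4]
          simp only [Matrix.mul_assoc]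
      _ = Y * (J ι ℤ * yᵀ) * Yᵀ * J ι ℤ := by simp only [e6, Matrix.mul_assoc]
      _ = _ := by
          rw [e5, ← Matrix.mul_assoc, e2]
          simp only [Matrix.mul_assoc]
  have h8 : γ * Φ.t = Φ.t * γ := zr_injective (by
    rw [zr_mul, zr_mul]
    exact Φ.comm_t (cm_iff.1 hc _ (Or.inl rfl)))
  refine ⟨Y - t • (Y * J ι ℤ * Yᵀ * J ι ℤ), ⟨?_, h5 a _ Φ.aJ (h4 a hc.1) (by
    rw [mul_sub, sub_mul, h4 a hc.1, h4 _ h8]), h5 b b Φ.bJ (h4 b hc.2) (h4 b hc.2)⟩, _,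
    (sub_add_cancel _ _).symm⟩
  have h6 := congrArg (fun T => J ι ℤ * T * J ι ℤ) h3
  have h7 : ∀ T : ZM ι, J ι ℤ * (J ι ℤ * T) = -T := fun T => by
    rw [← Matrix.mul_assoc, J_squared, Matrix.neg_mul, Matrix.one_mul]
  change _ + _ = _
  simp only [transpose_sub, transpose_smul, transpose_mul, transpose_transpose, J_transpose,
    mul_add, add_mul, sub_mul, mul_sub, smul_mul_assoc, mul_smul_comm, Matrix.mul_assoc, h7,
    J_squared, mul_neg, neg_mul, mul_one, neg_neg, mul_zero, zero_mul] at h6 ⊢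
  linear_combination (norm := module) -h6

theorem exists_layer (hC : ∀ g ∈ G, Cm a b g.1) (hG : SpD a b G) {p : ℕ} (hp : p ≠ 0)
    {X₀ : ZM ι} (h0 : X₀ ≠ 0) : ∃ k : ℕ, ∀ j : ℕ, ∀ g ∈ G, ∀ V : ZM ι,
      g.1 = 1 + ((32 * p ^ j : ℕ) : ℤ) • (X₀ * (1 + (p : ℤ) • V)) →
      ∀ Y ∈ gZ a b, ∃ g' ∈ G, ∃ Z : ZM ι,
        g'.1 = 1 + ((32 * p ^ j * p ^ k : ℕ) : ℤ) • Y + ((32 * (p ^ j) ^ 2 : ℕ) : ℤ) • Z := by
  obtain ⟨c, hc0, hc⟩ := hG X₀ h0
  refine ⟨c.natAbs, fun j g hg V hX Y hY => ?_⟩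
  obtain ⟨W, hW, Z, e⟩ := exists_lie Φ g.2 (hC g hg) (t := 16 * p ^ j)
    (Y := X₀ * (1 + (p : ℤ) • V)) (by positivity) (by
    rw [hX]
    push_cast
    rw [← mul_assoc (2 : ℤ)]
    norm_num)
  have hWL : W ∈ e2bL G (p ^ j : ℕ) := ⟨g, hg, (16 : ℤ) • Z, by
    rw [hX, e]
    push_cast
    module⟩
  have h1 := mul_neg_geom_sum (-((p : ℤ) • V)) j
  rw [sub_neg_eq_add, ← smul_neg, smul_pow] at h1
  generalize ∑ i ∈ Finset.range j, ((p : ℤ) • -V) ^ i = u at h1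
  obtain ⟨g', hg', Z', h4⟩ := e2b_ideal (e2bL G (p ^ j : ℕ)) Y (dvd_refl (p ^ j)) hc0 (e2b_q _ _)
    fun l hlp _ => ⟨1, fun h => hlp.one_lt.ne' (by
      exact_mod_cast Int.eq_one_of_dvd_one (by positivity) h), by
      rw [mul_one]
      refine hc _ (e2b_conj _) _ (e2b_q _) W hWL hW u (-(X₀ * (-V) ^ j) - (16 : ℤ) • (Z * u)) ?_ Y hY
      rw [eq_sub_of_add_eq e.symm, sub_mul, mul_assoc, h1, mul_sub, mul_one, mul_smul_comm,
        smul_mul_assoc]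
      push_cast
      module⟩
  refine ⟨g', hg', Z', ?_⟩
  rw [h4, smul_smul]
  push_cast
  rfl

theorem exists_open (h2 : Two a b) (hC : ∀ g ∈ G, Cm a b g.1)
    (hi : IrrP (imG G) {zr a, zr b} Φ.ep) {q : ℕ} (hm0 : q ≠ 0) : ∃ e : ℕ, ∀ (k : ℕ)
    (γ : symplecticGroup ι ℤ) (β : ZM ι), Cm a b γ.1 →
    γ.1 = 1 + ((32 * q ^ e : ℕ) : ℤ) • β → ∃ g ∈ G, ∃ (h : symplecticGroup ι ℤ)
      (β' : ZM ι), h.1 = 1 + ((32 * q ^ k : ℕ) : ℤ) • β' ∧ γ = h * g := by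
  obtain ⟨X₀, h0, htow⟩ := exists_tower Φ h2 hC hi hm0
  obtain ⟨k, hk⟩ := exists_layer Φ hC (spD Φ hC hi) hm0 h0
  have key : ∀ (d : ℕ) (γ : symplecticGroup ι ℤ) (β : ZM ι), Cm a b γ.1 →
      γ.1 = 1 + ((32 * (q ^ 2 * q ^ (k + 1) * q ^ k) : ℕ) : ℤ) • β → ∃ g ∈ G,
        ∃ (h : symplecticGroup ι ℤ) (β' : ZM ι), Cm a b h.1 ∧
          h.1 = 1 + ((32 * (q ^ 2 * q ^ (k + 1 + d) * q ^ k) : ℕ) : ℤ) • β' ∧ γ = h * g := by
    intro d γ β hc hb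
    induction d with
    | zero => exact ⟨1, G.one_mem, γ, β, hc, hb, (mul_one γ).symm⟩
    | succ d ih =>
      obtain ⟨g, hg, h, Y, hh, hY, rfl⟩ := ih
      obtain ⟨g0, hg0, X, hX⟩ := htow (k + 1 + d)
      have ha : ((16 * (q ^ 2 * q ^ (k + 1 + d) * q ^ k) : ℕ) : ℤ) ≠ 0 := by
        rw [Int.natCast_ne_zero]
        positivity
      obtain ⟨W, hW, Z, rfl⟩ := exists_lie Φ (Y := Y) h.2 hh ha (by
        rw [hY]
        push_cast
        rw [← mul_assoc (2 : ℤ)]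
        norm_num)
      obtain ⟨g1, hg1, Z', hZ⟩ := hk (2 + (k + 1 + d)) g0 hg0 X (by rw [pow_add q 2]; exact hX) W hW
      have h1 : h.1 = g1.1 + ((32 * (q ^ 2 * q ^ (k + 1 + d)) ^ 2 : ℕ) : ℤ) •
          ((16 * (q : ℤ) ^ k * (q : ℤ) ^ k) • Z - Z') := by
        rw [hY, hZ, pow_add q 2]
        push_cast
        module
      obtain ⟨b', hb'⟩ := e2_dvd (s := q ^ 2 * q ^ (k + 1 + (d + 1)) * q ^ k)
        ⟨q ^ 2 * q ^ d, by ring⟩ (e2_step h1)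
      exact ⟨g1 * g, G.mul_mem hg1 hg, h * g1⁻¹, b', hh.mul (hC _ (G.inv_mem hg1)), hb',
        by group⟩
  refine ⟨2 + (k + 1) + k, fun d γ β hc hb => ?_⟩
  obtain ⟨g, hg, h, b', -, hb', rfl⟩ := key d γ β hc (by rw [hb, pow_add q _ k, pow_add q 2])
  obtain ⟨b2, hb2⟩ := e2_dvd (s := q ^ d) ⟨q ^ 2 * q ^ (k + 1) * q ^ k, by ring⟩ hb'
  exact ⟨g, hg, h, b2, hb2, rfl⟩

end MG.CL
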