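import Pool.Agent.Lib.MP_33b3f9_ag.MG.E3.Fix
import Pool.Agent.Lib.MP_33b3f9_ag.MG.CL.Dens
import Pool.Agent.Lib.MP_33b3f9_ag.M4.FP.Defs

/-! The integral form of the irreducibility of the adjoint action on every factor. -/

set_option autoImplicit false

namespace MG.CL

open M4 M4.CL Matrix M8.E3 MG.E3

variable {σ ι : Type} [Fintype ι] [DecidableEq ι] {a b : ZM ι}
  {G : Subgroup (symplecticGroup ι ℤ)}

/-- `g` commutes with `a` and `b`. -/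
def Cm (a b g : ZM ι) : Prop := g * a = a * g ∧ g * b = b * g

/-- The real matrices of a subgroup. -/
abbrev imG (G : Subgroup (symplecticGroup ι ℤ)) : Set (RM ι) :=
  (fun g : symplecticGroup ι ℤ => zr g.1) '' G

omit [DecidableEq ι] in
theorem cm_iff {g : ZM ι} : Cm a b g ↔ ∀ y ∈ ({zr a, zr b} : Set (RM ι)), zr g * y = y * zr g := by
  refine ⟨?_, fun h => ⟨zr_injective (by rw [zr_mul, zr_mul, h _ (Or.inl rfl)]),
    zr_injective (by rw [zr_mul, zr_mul, h _ (Or.inr rfl)])⟩⟩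
  rintro h y (rfl | rfl)
  · rw [← zr_mul, h.1, zr_mul]
  · rw [← zr_mul, h.2, zr_mul]

omit [DecidableEq ι] in
theorem Cm.mul {g h : ZM ι} (hg : Cm a b g) (hh : Cm a b h) : Cm a b (g * h) :=
  ⟨by rw [mul_assoc, hh.1, ← mul_assoc, hg.1, mul_assoc],
    by rw [mul_assoc, hh.2, ← mul_assoc, hg.2, mul_assoc]⟩

/-- The integral points of the Lie algebra of the centraliser. -/
def gZ (a b : ZM ι) : Submodule ℤ (ZM ι) where
  carrier := {X | FP.InSp X ∧ Cm a b X}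
  zero_mem' := ⟨by simp [FP.InSp], by simp [Cm]⟩
  add_mem' := fun {X Y} hX hY => ⟨by
    change (X + Y)ᵀ * _ + _ * (X + Y) = 0
    rw [transpose_add, Matrix.add_mul, Matrix.mul_add, add_add_add_comm, hX.1, hY.1, add_zero], by
    rw [add_mul, mul_add, hX.2.1, hY.2.1], by rw [add_mul, mul_add, hX.2.2, hY.2.2]⟩
  smul_mem' := fun c X hX => ⟨by
    change (c • X)ᵀ * _ + _ * (c • X) = 0
    rw [transpose_smul, Matrix.smul_mul, Matrix.mul_smul, ← smul_add, hX.1, smul_zero], by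
    rw [Matrix.smul_mul, Matrix.mul_smul, hX.2.1], by rw [Matrix.smul_mul, Matrix.mul_smul, hX.2.2]⟩

theorem gC_of_gZ {X : ZM ι} (h : X ∈ gZ a b) : cx (zr X) ∈ gC {zr a, zr b} := by
  refine ⟨cx_mem_spC ?_, fun y hy => by rw [← cx_mul, cm_iff.1 h.2 y hy, cx_mul]⟩
  rw [← zr_J, ← zr_tr, ← zr_mul, ← zr_mul, ← zr_add, show Xᵀ * J ι ℤ + J ι ℤ * X = 0 from h.1]
  exact Matrix.map_zero _ Int.cast_zero

theorem zr_inv (g : symplecticGroup ι ℤ) : zr g.1 * zr (g⁻¹).1 = 1 := by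
  rw [← zr_mul, ← zr_one]
  exact congrArg (fun z : symplecticGroup ι ℤ => zr z.1) (mul_inv_cancel g)

/-- The adjoint action. -/
noncomputable def Ad (hG : ∀ g ∈ G, Cm a b g.1) : G →* Module.End ℂ (gC {zr a, zr b}) where
  toFun g := (LinearMap.mulLeftRight ℂ (cx (zr g.1.1), cx (zr (g.1⁻¹).1))).restrict fun _ hX =>
    E3.gC_conj ((sim_zr_iff _).2 g.1.2) (zr_inv g.1) (cm_iff.1 (hG _ g.2)) hX
  map_one' := by
    ext X : 2
    change cx (zr 1) * X.1 * cx (zr ((1 : symplecticGroup ι ℤ)⁻¹).1) = X.1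
    rw [inv_one]
    change cx (zr 1) * X.1 * cx (zr 1) = X.1
    rw [zr_one, cx_one, one_mul, mul_one]
  map_mul' g h := by
    ext X : 2
    change cx (zr (g.1.1 * h.1.1)) * X.1 * cx (zr ((g.1 * h.1)⁻¹).1) =
      cx (zr g.1.1) * (cx (zr h.1.1) * X.1 * cx (zr (h.1⁻¹).1)) * cx (zr (g.1⁻¹).1)
    rw [_root_.mul_inv_rev, Submonoid.coe_mul]
    simp only [zr_mul, cx_mul, mul_assoc]

theorem lin_int (φ : ℂ →ₗ[ℚ] ℚ) (z : ℤ) : φ z = z * φ 1 := by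
  rw [← zsmul_eq_mul, ← map_zsmul, zsmul_eq_mul, mul_one]

theorem span_rat (hG : ∀ g ∈ G, Cm a b g.1) {f : Module.End ℂ (gC {zr a, zr b})}
    (hf : f ∈ Submodule.span ℂ (Set.range (Ad hG))) (φ : ℂ →ₗ[ℚ] ℚ) : ∃ c : ℤ, c ≠ 0 ∧
      ∀ L : AddSubgroup (ZM ι), (∀ g ∈ G, ∀ X ∈ L, g.1 * X * (g⁻¹).1 ∈ L) → ∀ X ∈ L,
        ∀ hX : X ∈ gZ a b, ∃ W ∈ L, ∀ i j,
          (W i j : ℚ) = c * φ ((f ⟨cx (zr X), gC_of_gZ hX⟩).1 i j) := by
  induction hf using Submodule.span_induction generalizing φ with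
  | mem f hf =>
    obtain ⟨g, rfl⟩ := hf
    refine ⟨(φ 1).den, Int.natCast_ne_zero.2 (φ 1).den_nz, fun L hL X hX _ =>
      ⟨_, L.zsmul_mem (hL _ g.2 X hX) (φ 1).num, fun i j => ?_⟩⟩
    change _ = _ * φ ((cx (zr g.1.1) * cx (zr X) * cx (zr (g.1⁻¹).1)) i j)
    rw [← cx_mul, ← cx_mul, ← zr_mul, ← zr_mul, cx_zr]
    change (((φ 1).num * (g.1.1 * X * (g.1⁻¹).1) i j : ℤ) : ℚ) =
      _ * φ ((g.1.1 * X * (g.1⁻¹).1) i j : ℤ)
    rw [lin_int, Int.cast_mul, mul_left_comm, Int.cast_natCast, Rat.den_mul_eq_num, mul_comm]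
  | zero => exact ⟨1, one_ne_zero, fun L _ X _ _ => ⟨0, L.zero_mem, fun i j => by simp⟩⟩
  | add f g _ _ hf hg =>
    obtain ⟨c, hc, h1⟩ := hf φ
    obtain ⟨d, hd, h2⟩ := hg φ
    refine ⟨c * d, mul_ne_zero hc hd, fun L hL X hX hX' => ?_⟩
    obtain ⟨W, hW, h3⟩ := h1 L hL X hX hX'
    obtain ⟨W', hW', h4⟩ := h2 L hL X hX hX'
    refine ⟨_, L.add_mem (L.zsmul_mem hW d) (L.zsmul_mem hW' c), fun i j => ?_⟩
    rw [LinearMap.add_apply, Submodule.coe_add, Matrix.add_apply, Matrix.add_apply, map_add,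
      Matrix.smul_apply, Matrix.smul_apply]
    push_cast [smul_eq_mul, h3, h4]
    ring
  | smul z f _ hf => exact hf (φ ∘ₗ LinearMap.mulLeft ℚ z)

variable [Fintype σ] (Φ : Fr σ a b)

theorem ep_gC (s : σ) {X : MC ι} (hX : X ∈ gC {zr a, zr b}) : cx (Φ.ep s) * X ∈ gC {zr a, zr b} := by
  have h1 := Φ.commC (hX.2 _ (Or.inl rfl)) s
  have h2 : (cx (Φ.ep s))ᵀ * J ι ℂ = J ι ℂ * cx (Φ.ep s) := by
    rw [← cx_J, ← cx_mul, ← Φ.adj, cx_mul]
    rfl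
  refine ⟨?_, fun y hy => by
    rw [mul_assoc, hX.2 y hy, ← mul_assoc, ← cx_mul, Φ.ep_mem s y hy, cx_mul, mul_assoc]⟩
  change _ + _ = _
  rw [transpose_mul, mul_assoc, h2, ← mul_assoc, ← h1, ← mul_assoc, ← add_mul,
    show Xᵀ * J ι ℂ + J ι ℂ * X = 0 from hX.1, zero_mul]

/-- The projection to one factor. -/
noncomputable def pj (s : σ) : Module.End ℂ (gC {zr a, zr b}) :=
  (LinearMap.mulLeft ℂ (cx (Φ.ep s))).restrict fun _ hX => ep_gC Φ s hX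

theorem Ad_span (hG : ∀ g ∈ G, Cm a b g.1) (hi : IrrP (imG G) {zr a, zr b} Φ.ep)
    {f : Module.End ℂ (gC {zr a, zr b})} (hf : ∀ s, Commute (pj Φ s) f) :
    f ∈ Submodule.span ℂ (Set.range (Ad hG)) := by
  refine span_of_irrP ?_ (fun s s' h => ?_) (fun s g => ?_) (fun W hW s X hX h0 Y => ?_) hf
  · ext X : 2
    rw [LinearMap.sum_apply, Submodule.coe_sum]
    change ∑ s, cx (Φ.ep s) * X.1 = X.1
    rw [← Finset.sum_mul, Φ.sumC, one_mul]
  · ext X : 2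
    change cx (Φ.ep s) * (cx (Φ.ep s') * X.1) = 0
    rw [← mul_assoc, Φ.orthC s s' h, zero_mul]
  · refine LinearMap.ext fun X => Subtype.ext ?_
    change cx (Φ.ep s) * (cx (zr g.1.1) * X.1 * cx (zr (g.1⁻¹).1)) =
      cx (zr g.1.1) * (cx (Φ.ep s) * X.1) * cx (zr (g.1⁻¹).1)
    rw [← mul_assoc, ← mul_assoc, ← mul_assoc, ← cx_mul, ← cx_mul,
      Φ.comm (cm_iff.1 (hG _ g.2) _ (Or.inl rfl))]
  · obtain ⟨Z, hZ, e⟩ := hi (W.map (Submodule.subtype _)) (by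
      rintro _ ⟨X, -, rfl⟩
      exact X.2) (by
      rintro _ ⟨g, hg, rfl⟩ g' e _ ⟨X, hX, rfl⟩
      obtain rfl : g' = zr (g⁻¹).1 := left_inv_eq_right_inv (mul_eq_one_comm.1 e) (zr_inv g)
      exact ⟨_, hW ⟨g, hg⟩ X hX, rfl⟩) s X.1 ⟨X, hX, rfl⟩ (fun h => h0 (Subtype.ext h)) Y.1 Y.2
    exact (Subtype.ext e : Z = pj Φ s Y) ▸ hZ

/-- The trace with values in the field. -/
theorem exists_tr : ∃ (T : ZM ι →ₗ[ℤ] ZM ι) (d : σ → ℝ), (∀ s, d s ≠ 0) ∧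
    ∀ M, zr (T M) = ∑ s, (d s * (Φ.ep s * zr M).trace) • Φ.ep s := by
  obtain ⟨N, c, d, hd, -, h⟩ := Φ.cas
  refine ⟨∑ k, ∑ l, LinearMap.smulRight (c k l • (traceLinearMap _ ℤ ℤ ∘ₗ
    LinearMap.mulLeft ℤ (Φ.t ^ (k : ℕ)))) (Φ.t ^ (l : ℕ)), d, hd, fun M => ?_⟩
  rw [← h]
  simp only [LinearMap.sum_apply, LinearMap.smulRight_apply, zr_sum, zr_smul, zr_pow,
    LinearMap.smul_apply, LinearMap.comp_apply, LinearMap.mulLeft_apply, traceLinearMap_apply,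
    smul_eq_mul, Int.cast_mul]
  refine Finset.sum_congr rfl fun k _ => Finset.sum_congr rfl fun l _ => ?_
  rw [← zr_pow Φ.t k, ← zr_mul]
  congr 2
  simp [trace, zr]

/-- A stable lattice with an element that is congruent to `X₀` contains a fixed multiple of the
integral Lie algebra. -/
def SpD (a b : ZM ι) (G : Subgroup (symplecticGroup ι ℤ)) : Prop :=
  ∀ X₀ : ZM ι, X₀ ≠ 0 → ∃ c : ℤ, c ≠ 0 ∧ ∀ L : AddSubgroup (ZM ι),
    (∀ g ∈ G, ∀ X ∈ L, g.1 * X * (g⁻¹).1 ∈ L) → ∀ r : ℤ, (∀ Z : ZM ι, r • Z ∈ L) →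
      ∀ W ∈ L, W ∈ gZ a b → ∀ u V : ZM ι, W * u = X₀ + r • V → ∀ Y ∈ gZ a b, c • Y ∈ L

theorem spD (hG : ∀ g ∈ G, Cm a b g.1) (hi : IrrP (imG G) {zr a, zr b} Φ.ep) : SpD a b G := by
  classical
  obtain ⟨φ, hφ⟩ : ∃ φ : ℂ →ₗ[ℚ] ℚ, φ 1 = 1 := Module.Projective.exists_dual_eq_one ℚ one_ne_zero
  obtain ⟨T, d, hd, hT⟩ := exists_tr Φ
  have key : ∀ (Z Y : ZM ι), Y ∈ gZ a b → ∃ c : ℤ, c ≠ 0 ∧ ∀ L : AddSubgroup (ZM ι),
      (∀ g ∈ G, ∀ X ∈ L, g.1 * X * (g⁻¹).1 ∈ L) → ∀ X ∈ L, X ∈ gZ a b →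
        c • (T (X * Z) * Y) ∈ L := fun Z Y hY => by
    obtain ⟨c, hc, h⟩ := span_rat hG (Ad_span Φ hG hi (f := ∑ s, LinearMap.smulRight
      ((d s : ℂ) • (traceLinearMap _ ℂ ℂ ∘ₗ LinearMap.mulRight ℂ (cx (zr Z)) ∘ₗ
        Submodule.subtype _ ∘ₗ pj Φ s)) (pj Φ s ⟨_, gC_of_gZ hY⟩)) fun s =>
          Commute.sum_right _ _ _ fun s' _ => LinearMap.ext fun X => Subtype.ext (by
      change cx (Φ.ep s) * (((d s' : ℂ) * (cx (Φ.ep s') * X.1 * cx (zr Z)).trace) •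
        (cx (Φ.ep s') * cx (zr Y))) = ((d s' : ℂ) * (cx (Φ.ep s') * (cx (Φ.ep s) * X.1) *
          cx (zr Z)).trace) • (cx (Φ.ep s') * cx (zr Y))
      rw [mul_smul_comm, ← mul_assoc, ← mul_assoc]
      by_cases h : s = s'
      · rw [h, Φ.sqC]
      · simp [Φ.orthC _ _ h, Φ.orthC _ _ (Ne.symm h)])) φ
    refine ⟨c, hc, fun L hL X hX hX' => ?_⟩
    obtain ⟨W, hW, h1⟩ := h L hL X hX hX'
    obtain rfl : W = c • (T (X * Z) * Y) := Matrix.ext fun i j => by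
      have h2 := h1 i j
      have h3 : cx (zr (T (X * Z) * Y)) = ∑ s, ((d s : ℂ) * (cx (Φ.ep s) * cx (zr X) *
          cx (zr Z)).trace) • (cx (Φ.ep s) * cx (zr Y)) := by
        rw [zr_mul, hT, Finset.sum_mul, zr_mul]
        refine (map_sum Complex.ofRealHom.mapMatrix _ _).trans (Finset.sum_congr rfl fun s _ => ?_)
        rw [← cx_mul, ← cx_mul, ← cx_mul, smul_mul_assoc, mul_assoc]
        ext i j
        simp [cx, trace]
      rw [LinearMap.sum_apply, Submodule.coe_sum] at h2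
      change _ = _ * φ ((∑ s, ((d s : ℂ) * (cx (Φ.ep s) * cx (zr X) *
          cx (zr Z)).trace) • (cx (Φ.ep s) * cx (zr Y))) i j) at h2
      rw [← h3, cx_zr, map_apply, lin_int, hφ, mul_one, ← Int.cast_mul, Int.cast_inj] at h2
      exact h2
    exact hW
  choose! c hc0 hc using key
  obtain ⟨S, hs⟩ := IsNoetherian.noetherian (gZ a b)
  have hs' : ∀ Y ∈ S, Y ∈ gZ a b := fun Y hY => hs ▸ Submodule.subset_span hY
  have key2 : ∃ c : ℤ, c ≠ 0 ∧ ∀ L : AddSubgroup (ZM ι),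
      (∀ g ∈ G, ∀ X ∈ L, g.1 * X * (g⁻¹).1 ∈ L) → ∀ X ∈ L, X ∈ gZ a b → ∀ Z, ∀ Y ∈ gZ a b,
        c • (T (X * Z) * Y) ∈ L := by
    refine ⟨∏ p : (ι ⊕ ι) × (ι ⊕ ι), ∏ Y ∈ S, c (single p.1 p.2 1) Y, Finset.prod_ne_zero_iff.2
      fun p _ => Finset.prod_ne_zero_iff.2 fun Y hY => hc0 _ Y (hs' Y hY),
      fun L hL X hX hX' Z Y hY => ?_⟩
    rw [matrix_eq_sum_single Z]
    simp only [Finset.mul_sum, map_sum, Finset.sum_mul, Finset.smul_sum]
    refine sum_mem fun i _ => sum_mem fun j _ => ?_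
    rw [show single i j (Z i j) = Z i j • single i j (1 : ℤ) by simp, mul_smul_comm, map_smul, smul_mul_assoc,
      smul_comm]
    refine L.zsmul_mem ?_ _
    rw [← hs] at hY
    induction hY using Submodule.span_induction with
    | mem Y hY =>
      obtain ⟨u, hu⟩ := (Finset.dvd_prod_of_mem (c (single i j 1)) hY).trans
        (Finset.dvd_prod_of_mem (fun p : (ι ⊕ ι) × (ι ⊕ ι) => ∏ Y ∈ S, c (single p.1 p.2 1) Y)
          (Finset.mem_univ (i, j)))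
      rw [hu, mul_comm, mul_smul]
      exact L.zsmul_mem (hc _ Y (hs' Y hY) L hL X hX hX') u
    | zero => rw [mul_zero, smul_zero]; exact L.zero_mem
    | add Y Z _ _ h1 h2 => rw [mul_add, smul_add]; exact L.add_mem h1 h2
    | smul z Y _ h => rw [mul_smul_comm, smul_comm]; exact L.zsmul_mem h z
  obtain ⟨c, c0, hc⟩ := key2
  intro X₀ h0
  obtain ⟨Z, hZ⟩ : ∃ Z : ZM ι, ∀ s, (Φ.ep s * zr (X₀ * Z)).trace ≠ 0 := by
    rcases isEmpty_or_nonempty σ with h | ⟨⟨s⟩⟩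
    · exact ⟨0, fun s => (h.false s).elim⟩
    obtain ⟨i, j, h1⟩ : ∃ i j, (Φ.ep s * zr X₀) i j ≠ 0 := by
      by_contra h1
      push Not at h1
      exact h0 (Φ.ratZ (Matrix.ext h1))
    have e : ∀ s', Φ.ep s' * zr (T (X₀ * single j i 1)) =
        (d s' * (Φ.ep s' * zr (X₀ * single j i (1 : ℤ))).trace) • Φ.ep s' := fun s' => by
      rw [hT, Finset.mul_sum, Finset.sum_eq_single s' (fun s'' _ h => by
        rw [mul_smul_comm, Φ.orth _ _ h.symm, smul_zero]) (by simp), mul_smul_comm, Φ.sq]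
    refine ⟨single j i 1, fun s' h2 => h1 ?_⟩
    have h3 := e s
    rw [Φ.ratZ (s := s') (by rw [e, h2, mul_zero, zero_smul] : _ * zr (T _) = 0),
      show zr (0 : ZM ι) = 0 from Matrix.map_zero _ Int.cast_zero, mul_zero, eq_comm,
      smul_eq_zero] at h3
    rcases h3 with h3 | h3
    · rw [zr_mul, ← mul_assoc, show zr (single j i (1 : ℤ)) = single j i 1 from
        (map_single j i 1 (Int.castRingHom ℝ)).trans (by rw [map_one]), trace_mul_single] at h3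
      simpa [hd s] using h3
    · rw [h3, zero_mul, Matrix.zero_apply]
  obtain ⟨h, hh⟩ : ∃ h, h = T (X₀ * Z) := ⟨_, rfl⟩
  have h1 : ∀ g : RM ι, g * zr a = zr a * g ∨ g = zr b → g * zr h = zr h * g := fun g hg => by
    rw [hh, hT]
    refine (Commute.sum_right _ _ _ fun s _ => Commute.smul_right ?_ _).eq
    rcases hg with hg | rfl
    exacts [Φ.comm hg s, (Φ.ep_mem s _ (Or.inr rfl)).symm]
  have h2 : h.det ≠ 0 := fun e => by
    have e1 : zr h * ∑ s, (d s * (Φ.ep s * zr (X₀ * Z)).trace)⁻¹ • Φ.ep s = 1 := by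
      rw [hh, hT, Finset.sum_mul, ← Φ.sum]
      refine Finset.sum_congr rfl fun s _ => ?_
      rw [Finset.mul_sum, Finset.sum_eq_single s (fun s' _ h => by
        rw [smul_mul_smul_comm, Φ.orth _ _ h.symm, smul_zero]) (by simp), smul_mul_smul_comm, Φ.sq,
        mul_inv_cancel₀ (mul_ne_zero (hd s) (hZ s)), one_smul]
    refine det_ne_zero_of_right_inverse e1 ?_
    rw [zr, ← Int.cast_det, e, Int.cast_zero]
  have h3 : hᵀ * J ι ℤ = J ι ℤ * h := zr_injective (by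
    rw [zr_mul, zr_mul, zr_tr, zr_J, hh, hT, transpose_sum, Finset.sum_mul, Finset.mul_sum]
    simp only [transpose_smul, smul_mul_assoc, mul_smul_comm, Φ.adj])
  have h4 : ∀ x y : ZM ι, h * x = h * y → x = y := fun x y e => smul_right_injective _ h2 (by
    beta_reduce
    rw [← one_mul x, ← one_mul y, ← smul_mul_assoc, ← smul_mul_assoc, ← adjugate_mul, mul_assoc, e,
      mul_assoc])
  have h5 : ∀ Y, h * (h.adjugate * Y) = h.det • Y := fun Y => by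
    rw [← mul_assoc, mul_adjugate, smul_mul_assoc, one_mul]
  refine ⟨c * h.det, mul_ne_zero c0 h2, fun L hL r hr W hW hW' u V e Y hY => ?_⟩
  have k1 : ∀ x : ZM ι, x * h = h * x → Y * x = x * Y →
      h.adjugate * Y * x = x * (h.adjugate * Y) := fun x e1 e2 => h4 _ _ (by
    rw [← mul_assoc, h5, ← mul_assoc h x, ← e1, mul_assoc, h5, smul_mul_assoc, mul_smul_comm, e2])
  have k2 : Y * h = h * Y := zr_injective (by
    rw [zr_mul, zr_mul, h1 _ (Or.inl (cm_iff.1 hY.2 _ (Or.inl rfl)))])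
  have k3 : h.adjugate * Y ∈ gZ a b := by
    refine ⟨?_, k1 a (zr_injective (by rw [zr_mul, zr_mul, h1 _ (Or.inl rfl)])) hY.2.1,
      k1 b (zr_injective (by rw [zr_mul, zr_mul, h1 _ (Or.inr rfl)])) hY.2.2⟩
    have k4 : hᵀ * ((h.adjugate * Y)ᵀ * J ι ℤ + J ι ℤ * (h.adjugate * Y)) = 0 := by
      rw [mul_add, ← mul_assoc, ← transpose_mul, k1 h rfl k2, h5, ← mul_assoc, h3, mul_assoc, h5,
        transpose_smul, smul_mul_assoc, mul_smul_comm, ← smul_add,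
        show Yᵀ * J ι ℤ + J ι ℤ * Y = 0 from hY.1, smul_zero]
    have k5 := congrArg (hᵀ.adjugate * ·) k4
    simp only [← mul_assoc, adjugate_mul, det_transpose, smul_mul_assoc, one_mul, mul_zero] at k5
    rw [mul_assoc] at k5
    exact (smul_eq_zero.1 k5).resolve_left h2
  have k4 := hc L hL W hW hW' (u * Z) _ k3
  rw [← mul_assoc W, e, add_mul, smul_mul_assoc, map_add, map_smul, ← hh, add_mul, h5, smul_add,
    smul_smul, smul_mul_assoc, smul_comm] at k4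
  exact (L.add_mem_cancel_right (hr _)).1 k4

end MG.CL
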