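import Pool.Agent.Lib.MP_33b3f9_ag.MG.GDefs
import Pool.Agent.Lib.MP_33b3f9_ag.M4.CL.Hb

/-! Polynomials in the `d + 1` linear forms as functions on the Siegel space. -/

set_option autoImplicit false

namespace MG.CL

open M4 hiding zr lin th2 Bits MZ
open M4.CL hiding zr evY PY evY_apply evY_mem slash_evY finrank_fil
open Matrix Filter Topology MvPolynomial

variable [Dim] {d : ℕ} (y : Matrix (Fin (d + 1)) Bits ℂ)

/-- A polynomial in the `d + 1` linear forms as a function on the Siegel space. -/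
noncomputable def evY : MvPolynomial (Fin (d + 1)) ℂ →ₐ[ℂ] (HH ι → ℂ) :=
  aeval fun i τ => lin y τ.1 i

/-- Forms of degree `8 i` in the `d + 1` linear forms. -/
noncomputable def PY (i : ℕ) : Submodule ℂ (HH ι → ℂ) :=
  (homogeneousSubmodule (Fin (d + 1)) ℂ (8 * i)).map (evY y).toLinearMap

theorem evY_apply (φ : MvPolynomial (Fin (d + 1)) ℂ) (τ : HH ι) :
    evY y φ τ = eval (lin y τ.1) φ := by
  induction φ using MvPolynomial.induction_on with
  | C a => simp [evY]
  | add p q hp hq => rw [map_add, map_add, Pi.add_apply, hp, hq]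
  | mul_X p i hp => rw [map_mul, map_mul, Pi.mul_apply, hp, eval_X, evY, aeval_X]

/-- Each linear form is a combination of the `t2 e`; `homogeneousSubmodule_one_pow` or a sum over
monomials with `MF.mul`, `MF.pow`. -/
theorem evY_mem {n : ℕ} {φ : MvPolynomial (Fin (d + 1)) ℂ} (h : φ.IsHomogeneous n) :
    evY y φ ∈ MF ι n := by
  have h1 : (homogeneousSubmodule (Fin (d + 1)) ℂ 1).map (evY y).toLinearMap ≤ MF ι 1 := by
    rw [homogeneousSubmodule_one_eq_span_X, Submodule.map_span, Submodule.span_le]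
    rintro _ ⟨_, ⟨i, rfl⟩, rfl⟩
    have e : evY y (X i) = ∑ ε, y i ε • t2 ε := by
      funext τ
      rw [evY_apply, eval_X, Finset.sum_apply]
      rfl
    change evY y (X i) ∈ MF ι 1
    rw [e]
    exact Submodule.sum_mem _ fun ε _ => Submodule.smul_mem _ _ (t2_mem ε)
  have h2 : evY y φ ∈ (homogeneousSubmodule (Fin (d + 1)) ℂ 1 ^ n).map (evY y).toLinearMap :=
    ⟨φ, by rw [homogeneousSubmodule_one_pow]; exact h, rfl⟩
  rw [Submodule.map_pow] at h2
  rw [MF, pow_one] at h1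
  exact pow_le_pow_left' h1 n h2

/-- `null_law`; a form of degree `n` satisfies `eval (c • x) φ = c ^ n * eval x φ`. -/
theorem slash_evY {γ b : MZ} (hγ : γ ∈ symplecticGroup ι ℤ) (h : γ = 1 + (8 : ℤ) • b) {i : ℕ}
    {φ : MvPolynomial (Fin (d + 1)) ℂ} (hφ : φ.IsHomogeneous (8 * i)) :
    slash i (zr γ) (evY y φ) = evY y φ := by
  funext τ
  obtain ⟨c, hc, h2⟩ := null_law hγ h τ
  have h3 : lin y (aH (zr γ) τ).1 = c • lin y τ.1 := by
    have h4 : th2 (aH (zr γ) τ).1 = c • th2 τ.1 := funext h2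
    rw [lin, lin, h4, mulVec_smul]
  rw [slash_apply, evY_apply, evY_apply, h3, fam_smul hφ, pow_mul, hc]
  exact mul_div_cancel_left₀ _ (pow_ne_zero _ (wt_ne_zero ((sim_zr_iff γ).2 hγ) one_pos τ))

/-- `Submodule.map_iSup`, `Submodule.finrank_add_le_finrank_add_finrank` by induction on `k`. -/
theorem finrank_fil {Q : Type} [AddCommGroup Q] [Module ℂ Q]
    (L : (Cn ι → ℂ) →ₗ[ℂ] Q) (P : Ideal (MvPolynomial (Fin (d + 1)) ℂ))
    (h : ∀ i, ∀ φ ∈ P, φ.IsHomogeneous (8 * i) → L (lift i (evY y φ)) = 0) {del c w : ℕ}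
    (hb : ∀ μ, Z.HF P μ ≤ del * (μ + c + w).choose w) (k : ℕ) :
    Module.Finite ℂ ((fil (PY y) k).map L) ∧
      Module.finrank ℂ ((fil (PY y) k).map L) ≤ del * (8 * k + c + (w + 1)).choose (w + 1) := by
  have h1 : ∀ i, ((PY y i).map (lift i)).map L = (homogeneousSubmodule (Fin (d + 1)) ℂ (8 * i)).map
      (L ∘ₗ lift i ∘ₗ (evY y).toLinearMap) := fun i => by
    rw [Submodule.map_comp, Submodule.map_comp, PY]
  have h2 : ∀ n, Module.Finite ℂ ((⨆ i ∈ Finset.range n, (PY y i).map (lift i)).map L) ∧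
      Module.finrank ℂ ((⨆ i ∈ Finset.range n, (PY y i).map (lift i)).map L) ≤
        del * ∑ i ∈ Finset.range n, (8 * i + c + w).choose w := by
    intro n
    induction n with
    | zero =>
      have e : (⨆ i ∈ Finset.range 0, (PY y i).map (lift i)).map L = ⊥ := by simp
      rw [e]
      exact ⟨inferInstance, by simp⟩
    | succ n ih =>
      have := ih.1
      have : Module.Finite ℂ (homogeneousSubmodule (Fin (d + 1)) ℂ (8 * n)) :=
        Module.Finite.iff_fg.2 (homogeneousSubmodule_fg _ ℂ _)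
      rw [Finset.sum_range_succ, Finset.range_add_one, Finset.iSup_insert, Submodule.map_sup, h1]
      refine ⟨inferInstance, (Submodule.finrank_add_le_finrank_add_finrank _ _).trans ?_⟩
      rw [mul_add, add_comm]
      exact add_le_add ih.2 ((finrank_map_le P _ _ (h n)).trans (hb _))
  exact ⟨(h2 (k + 1)).1, (h2 (k + 1)).2.trans (Nat.mul_le_mul_left _ (sum_choose_le k c w))⟩

omit [Dim] in
/-- The eighth power of a linear form. -/
theorem exists_sep {u u' : Fin (d + 1) → ℂ} (h : ∀ t : ℂ, u' ≠ t • u) :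
    ∃ φ : MvPolynomial (Fin (d + 1)) ℂ, φ.IsHomogeneous (8 * 1) ∧ eval u φ = 0 ∧ eval u' φ ≠ 0 := by
  obtain ⟨f, h1, h2⟩ := Submodule.exists_le_ker_of_notMem (p := Submodule.span ℂ {u}) (v := u')
    fun hm => by
      obtain ⟨t, ht⟩ := Submodule.mem_span_singleton.1 hm
      exact h t ht.symm
  have h3 : ∀ v : Fin (d + 1) → ℂ,
      eval v (∑ i, C (f fun j => if i = j then 1 else 0) * X i : MvPolynomial (Fin (d + 1)) ℂ) = f v := by
    intro v
    rw [LinearMap.pi_apply_eq_sum_univ f v, map_sum]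
    exact Finset.sum_congr rfl fun i _ => by rw [map_mul, eval_C, eval_X, smul_eq_mul, mul_comm]
  refine ⟨(∑ i, C (f fun j => if i = j then 1 else 0) * X i) ^ 8, ?_, ?_, ?_⟩
  · exact (IsHomogeneous.sum _ _ 1 fun i _ => isHomogeneous_C_mul_X _ i).pow 8
  · rw [map_pow, h3, h2 (Submodule.mem_span_singleton_self u)]
    norm_num
  · rw [map_pow, h3]
    exact pow_ne_zero 8 h1

omit [Dim] in
/-- `MvPolynomial.trdeg_of_isDomain` shows `P ≠ ⊥`; the eighth power of a homogeneous component. -/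
theorem exists_form {P : Ideal (MvPolynomial (Fin (d + 1)) ℂ)} (hP : Z.Hom P) (hd : Z.dm ℂ P < d + 1) :
    ∃ (k : ℕ) (φ : MvPolynomial (Fin (d + 1)) ℂ), φ ∈ P ∧ φ ≠ 0 ∧ φ.IsHomogeneous (8 * k) := by
  have h0 : P ≠ ⊥ := by
    rintro rfl
    rw [Z.dm, (AlgEquiv.quotientBot ℂ (MvPolynomial (Fin (d + 1)) ℂ)).trdeg_eq,
      MvPolynomial.trdeg_of_isDomain] at hd
    simp at hd
  obtain ⟨g, hg, hg0⟩ := Submodule.exists_mem_ne_zero_of_ne_bot h0
  obtain ⟨k, -, hk⟩ := Finset.exists_ne_zero_of_sum_ne_zero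
    ((sum_homogeneousComponent g).trans_ne hg0)
  exact ⟨k, homogeneousComponent k g ^ 8, P.pow_mem_of_mem (hP g hg k) 8 (by norm_num),
    pow_ne_zero 8 hk, mul_comm k 8 ▸ (homogeneousComponent_isHomogeneous k g).pow 8⟩

end MG.CL
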