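import Pool.Agent.Lib.MP_33b3f9_ag.MG.CL.Ev
import Pool.Agent.Lib.MP_33b3f9_ag.MG.CL.Bd
import Pool.Agent.Lib.MP_33b3f9_ag.MG.Tr
import Pool.Agent.Lib.MP_33b3f9_ag.M8.CL.Fam
import Pool.Agent.Lib.MP_33b3f9_ag.M4.CL.Gm

/-! The frame of the counting lemma on the fixed locus, and the germ. -/

set_option autoImplicit false

namespace MG.CL

open M4 M4.CL Matrix Filter Topology MvPolynomial M8.CL

variable [Dim]

/-- The two matrices. -/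
abbrev AB (a b : MZ) : Set (RM ι) := {M4.CL.zr a, M4.CL.zr b}

variable {a b : MZ} {e p q m d : ℕ}

theorem cx_mem (hP : PEL e a b p q) (x : CX (AB a b)) : x.1.t.1 ∈ FX a b :=
  (hP.fx_iff x.1.t.2).2 ⟨(x.2 _ (Or.inl rfl)).symm, (x.2 _ (Or.inr rfl)).symm⟩

theorem cx_of (hP : PEL e a b p q) {τ : Mat} (h : τ ∈ FX a b) :
    ∀ x ∈ AB a b, cst τ * x = x * cst τ := by
  rintro x (rfl | rfl)
  exacts [((hP.fx_iff h.1).1 h).1.symm, ((hP.fx_iff h.1).1 h).2.symm]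

theorem fam_eight (β : MZ) : 1 + ((32 : ℕ) : ℤ) • β = 1 + (8 : ℤ) • (4 : ℤ) • β := by
  rw [smul_smul]
  rfl

theorem lv_eq {N : ℕ} {γ : MZ} (h : Lv N γ) : ∃ β : MZ, γ = 1 + (N : ℤ) • β := by
  choose β hβ using h
  refine ⟨Matrix.of β, ?_⟩
  rw [← sub_eq_iff_eq_add']
  ext i j
  exact hβ i j

variable (y : Matrix (Fin (d + 1)) Bits ℂ)

theorem PY_inv {k : ℕ} {F : CX (AB a b) → ℂ} (hF : F ∈ resF (AB a b) (fil (PY y)) k) :
    Inv (LvD (AB a b) m 32) F := by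
  obtain ⟨F', hF', rfl⟩ := mem_resF.1 hF
  obtain ⟨f, hf, rfl⟩ := mem_fil.1 hF'
  intro x hx
  obtain ⟨h1, β, h2⟩ := mem_LvD.1 hx
  rw [sl_res, sl_sum]
  refine congrArg _ (Finset.sum_congr rfl fun i _ => ?_)
  obtain ⟨φ, hφ, e⟩ := hf i
  rw [h2] at h1 ⊢
  rw [← e]
  exact congrArg (lift i) (slash_evY y ((sim_zr_iff _).1 h1) (fam_eight β) hφ)

theorem gen_fg (hP : PEL e a b p q) {c : Ch d a b} {N0 : ℕ} {kk : Fin N0 → ℕ}
    {gg : Fin N0 → c.U → ℂ} (h : Gen c y kk gg) {σ : CX (AB a b) → c.U}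
    (hσ : ∀ x, c.h (σ x) = x.1.t) {k : ℕ} {F : CX (AB a b) → ℂ}
    (hF : F ∈ resF (AB a b) (FF ι) k) (hi : Inv (LvD (AB a b) m 32) F) :
    ∃ r : Fin N0 → CX (AB a b) → ℂ, (∀ i, r i ∈ resF (AB a b) (fil (PY y)) k) ∧
      F = ∑ i, r i * fun x => x.1.l ^ kk i * gg i (σ x) := by
  obtain ⟨F', hF', rfl⟩ := mem_resF.1 hF
  obtain ⟨f, hf, rfl⟩ := mem_fil.1 hF'
  have hm : ∀ j < k + 1, (fun z => f j (c.h z)) ∈ Rx.MIX ![a, b] c.h {γ | Lv 32 γ} j :=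
    fun j hj => by
    refine Rx.mem_MIX.2 ⟨f j, hf j, fun γ h1 h2 z => ?_, fun _ => rfl⟩
    obtain ⟨β, e⟩ := lv_eq h1
    have h3 := (sim_zr_iff γ).2 h2.1
    obtain ⟨x, hx⟩ := exists_gd (a := a) (b := b) one_pos (one_dvd m) (by rwa [Nat.cast_one])
      (e.trans (fam_eight _)) (h2.2 0) (h2.2 1)
    have h4 := hi x (mem_LvD.2 ⟨by rwa [hx], β, by rw [hx, ← e]⟩)
    rw [sl_res, sl_sum, hx] at h4
    exact lift_inj_at (fun l => congrFun h4 ⟨⟨l, c.h z⟩, cx_of hP (c.mem z.1 z.2)⟩) hj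
  choose! r hr1 hr2 using fun j (hj : j < k + 1) => h j _ (hm j hj)
  refine ⟨fun i => res _ (∑ j ∈ Finset.range (k + 1), lift (j - kk i) (evY y (r j i))),
    fun i => mem_resF.2 ⟨_, Submodule.sum_mem _ fun j hj => ?_, rfl⟩, ?_⟩
  · rw [Finset.mem_range] at hj
    rcases hr1 j hj i with h0 | ⟨-, h1⟩
    · rw [h0, map_zero, map_zero]
      exact Submodule.zero_mem _
    · exact lift_mem_fil (by omega) ⟨r j i, h1, rfl⟩
  · funext x
    simp only [res_apply, Finset.sum_apply, Pi.mul_apply, lift_apply, Finset.sum_mul]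
    rw [Finset.sum_comm]
    refine Finset.sum_congr rfl fun j hj => ?_
    rw [Finset.mem_range] at hj
    rw [← hσ x, hr2 j hj, Finset.mul_sum]
    refine Finset.sum_congr rfl fun i _ => ?_
    rcases hr1 j hj i with h0 | ⟨h1, -⟩
    · simp [h0]
    · rw [evY_apply, mul_mul_mul_comm, ← pow_add, Nat.sub_add_cancel h1]
      rfl

variable {E : Type} [NormedAddCommGroup E] [NormedSpace ℂ E]

theorem exists_setup (hP : PEL e a b p q) {c : Ch d a b} {N0 : ℕ} {kk : Fin N0 → ℕ}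
    {gg : Fin N0 → c.U → ℂ} (h : Gen c y kk gg) (hm : m ≠ 0) (V : Germ ι E)
    (hV : ∀ s, (V.p s).1 ∈ FX a b) : ∃ S : Setup (GD (AB a b) m) (CX (AB a b)),
      Con S V ∧ S.A = resF (AB a b) (fil (PY y)) ∧ S.N0 = N0 := by
  have hσ : ∀ x : CX (AB a b), ∃ z, c.h z = x.1.t := fun x => by
    obtain ⟨z, h1, h2⟩ := c.sur _ (cx_mem hP x)
    exact ⟨⟨z, h1⟩, Subtype.ext h2⟩
  choose σ hσ using hσ
  refine setup_of hm V (fun s => cx_of hP (hV s)) (PY y)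
    ⟨1, isHomogeneous_one _ _, map_one (evY y)⟩ ?_ ?_ (PY_inv y) _ (gen_fg y hP h hσ)
  · rintro i j _ ⟨φ, hφ, rfl⟩ _ ⟨ψ, hψ, rfl⟩
    exact ⟨φ * ψ, by rw [mul_add]; exact IsHomogeneous.mul hφ hψ, map_mul (evY y) φ ψ⟩
  · rintro i _ ⟨φ, hφ, rfl⟩
    exact evY_mem y hφ

theorem exists_germ (c : Ch d a b) {k : ℕ} {v : (Fin k → ℂ) → Fin d → ℂ} (hv : AnalyticAt ℂ v 0)
    (hz : v 0 ∈ c.U) (hi : Function.Injective (fderiv ℂ v 0)) :
    ∃ V : Germ ι (Fin k → ℂ), (∀ s, (V.p s).1 ∈ FX a b) ∧ V.w 0 = c.f (v 0) ∧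
      (∀ᶠ s in 𝓝 0, V.w s = c.f (v s)) ∧
      Function.Injective (fderiv ℂ (fun s (i j : ι) => V.w s i j) 0) := by
  classical
  have h1 : ∀ᶠ s in 𝓝 0, v s ∈ c.U := hv.continuousAt.eventually_mem (c.op.mem_nhds hz)
  let w : (Fin k → ℂ) → Mat := fun s => c.f (if v s ∈ c.U then v s else v 0)
  have h2 : ∀ s, w s ∈ FX a b := fun s => c.mem _ (by split_ifs with h; exacts [h, hz])
  have h3 : ∀ᶠ s in 𝓝 0, w s = c.f (v s) := h1.mono fun s hs => by simp only [w, if_pos hs]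
  have h4 : AnalyticAt ℂ (fun (s : Fin k → ℂ) (i j : ι) => w s i j) 0 :=
    ((Pool.Agent.Lib.MP_a47f92_an.Osg.analyticOnNhd_of_differentiableOn c.op c.hol _ hz).comp
      hv).congr (h3.mono fun s hs => by simp only [Function.comp_apply, hs])
  refine ⟨⟨w, h4, fun s => (h2 s).1.1, (h2 0).1⟩, fun s => ?_, h3.self_of_nhds, h3, ?_⟩
  · rw [Germ.p, gm_pt _ (h2 s).1]
    exact h2 s
  · have h5 : v =ᶠ[𝓝 0] c.L ∘ fun (s : Fin k → ℂ) (i j : ι) => w s i j := by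
      filter_upwards [h1, h3] with s a1 a2
      exact (c.inv _ a1).symm.trans (congrArg c.L a2.symm)
    rw [h5.fderiv_eq, fderiv_comp 0 (c.holL _ (h2 0).1) h4.differentiableAt] at hi
    exact Function.Injective.of_comp hi

end MG.CL
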