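import Pool.Agent.Lib.MP_33b3f9_ag.MG.CL.Fam
import Pool.Agent.Lib.MP_33b3f9_ag.M8.CL.Main

/-! The counting lemma. -/

set_option autoImplicit false

namespace MG.CL

open M4 M4.CL Matrix Filter Topology MvPolynomial M8.CL

variable [Dim] {a b : MZ} {e m n d : ℕ} {σ : Type}

/-- `G` commutes with `a` and `b`, and its adjoint action on every factor is irreducible. -/
def IRR (a b : MZ) (ep : σ → RM ι) (G : Subgroup (symplecticGroup ι ℤ)) : Prop :=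
  (∀ g ∈ G, Com a b g.1) ∧ E3.IrrP (imG G) (AB a b) ep

/-- Monodromy. -/
def MONOst (ep : σ → RM ι) (c : Ch d a b) (y : Matrix (Fin (d + 1)) Bits ℂ) (z : Fin d → ℂ) : Prop :=
  ∀ (g : MZ) (M : ℕ), Isg a b g M → ∀ (k : ℕ) (v : (Fin k → ℂ) → Fin d → ℂ)
    (P : Ideal (MvPolynomial (Fin (d + 1)) ℂ)), 1 ≤ k → AnalyticAt ℂ v 0 → v 0 = z →
    Function.Injective (fderiv ℂ v 0) → P.IsPrime → Z.Hom P → Z.dm ℂ P = k + 1 →
    Z.Cuts z (Thy c y g) (Filter.map v (𝓝 0)) P →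
    ∃ G : Subgroup (symplecticGroup ι ℤ), IRR a b ep G ∧ (∀ γ ∈ G, Lv 8 γ.1) ∧
      ∀ γ ∈ G, ∀ F : (ι → ι → ℂ) → ℂ, DifferentiableOn ℂ F (PosIm ι) →
        (∀ᶠ s in 𝓝 0, F (act (zr g) (c.f (v s))) = 0) →
        ∀ᶠ s in 𝓝 0, F (FP.az γ (act (zr g) (c.f (v s)))) = 0

theorem com_of {γ : MZ} (h : ∀ x ∈ AB a b, M4.CL.zr γ * x = x * M4.CL.zr γ) : Com a b γ :=
  ⟨zr_injective (by rw [M4.CL.zr_mul, M4.CL.zr_mul, h _ (Or.inl rfl)]),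
    zr_injective (by rw [M4.CL.zr_mul, M4.CL.zr_mul, h _ (Or.inr rfl)])⟩

theorem cl [Fintype σ] (hP : PEL e a b m n) (Φ : E3.Fr σ a b) (h2 : Two a b) (c : Ch d a b)
    (y : Matrix (Fin (d + 1)) Bits ℂ) (z : Fin d → ℂ) (hz : z ∈ c.U)
    (hy : FinProj a b y) (hF : FINst c y) (hM : MONOst Φ.ep c y z) : CLst c y z := by
  classical
  obtain ⟨N0, kk, gg, hG⟩ := hF
  refine ⟨N0 * 128 ^ d, fun α X g M hI hS w v P del e hd1 hd hv hv0 hinj hPr hH hdm hb hC => ?_⟩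
  rcases X.eq_empty_or_nonempty with rfl | ⟨ξ0, hξ0⟩
  · simp
  subst hv0
  obtain ⟨q, hq, hqd⟩ : ∃ q : ℕ, Odd q ∧ ∀ ξ ∈ X, M ξ ∣ q :=
    ⟨∏ ξ ∈ X, M ξ, Finset.prod_induction _ Odd (fun _ _ => Odd.mul) odd_one
      fun ξ h => (hI ξ h).1, fun ξ h => Finset.dvd_prod_of_mem _ h⟩
  have hx : ∀ ξ, ∃ x : GD (AB a b) q, ξ ∈ X → mx x.1 = zr (g ξ) := fun ξ => by
    by_cases h : ξ ∈ X
    · obtain ⟨h1, h2, h3, h4⟩ := hI ξ h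
      obtain ⟨β, hβ⟩ := lv_eq (N := 32) h2
      obtain ⟨x, hx⟩ := exists_gd (a := a) (b := b) h1.pos (hqd ξ h) h3 (hβ.trans (fam_eight β))
        h4.1 h4.2
      exact ⟨x, fun _ => hx⟩
    · exact ⟨1, fun h' => absurd h' h⟩
  choose x hx using hx
  obtain ⟨V, hV, hw0, hw, hVi⟩ := exists_germ c hv hz hinj
  obtain ⟨S, hC', hA, hN⟩ := exists_setup y hP hG hq.pos.ne' V hV
  have val : ∀ ξ ∈ X, ∀ (φ : MvPolynomial (Fin (d + 1)) ℂ) (τ : HH ι) (t : Fin d → ℂ),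
      τ.1 = c.f t → evY y φ (aH (mx (x ξ).1) τ) = eval (Thy c y (g ξ) t) φ :=
    fun ξ h φ τ t ht => by
    obtain ⟨μ, h1, h2⟩ := mx_sim (x ξ).1
    rw [evY_apply, aH_val h2 h1, hx ξ h, ht]
    rfl
  have key : ∀ ξ ∈ X, ∀ (μ : ℕ) (φ : MvPolynomial (Fin (d + 1)) ℂ), φ.IsHomogeneous μ →
      ((∀ᶠ s in 𝓝 0, evY y φ (aH (mx (x ξ).1) (V.p s)) = 0) ↔ φ ∈ P) := fun ξ h μ φ hφ => by
    rw [(hC ξ h).1 μ φ hφ, eventually_map]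
    refine eventually_congr ((V.p_val.and hw).mono fun s hs => ?_)
    rw [val ξ h φ _ (v s) (hs.1.trans hs.2)]
  have key' : ∀ ξ ∈ X, ∀ (i : ℕ) (φ : MvPolynomial (Fin (d + 1)) ℂ), φ.IsHomogeneous (8 * i) →
      (sl (x ξ) (res _ (lift i (evY y φ))) ∈ S.I ↔ φ ∈ P) := fun ξ h i φ hφ => by
    rw [sl_res, hC'.I, sl_lift', V.lift_mem_I, ← key ξ h _ φ hφ]
    simp only [slash_zero]
  have hpt : ∀ ξ ∈ X, ∀ φ : MvPolynomial (Fin (d + 1)) ℂ,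
      (res _ (lift 1 (evY y φ)) (x ξ • S.a) = 0 ↔ eval (Thy c y (g ξ) (v 0)) φ = 0) :=
    fun ξ h φ => by
    have e : res _ (lift 1 (evY y φ)) (x ξ • S.a) = sl (x ξ).1 (lift 1 (evY y φ)) S.a.1 := rfl
    rw [e, sl_lift', hC'.a, lift_apply, ← val ξ h φ V.a (v 0) hw0, ← slash_zero _ 1]
    simp [Germ.c, V.p_zero]
  obtain ⟨G, hG1, hG2, hG3⟩ :=
    hM (g ξ0) (M ξ0) (hI ξ0 hξ0) w v P hd1 hv rfl hinj hPr hH hdm (hC ξ0 hξ0)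
  have hT : ∀ γ ∈ G, Tf V (mx (x ξ0).1) γ := fun γ hγ F h1 h2 => by
    rw [hx ξ0 hξ0] at h2 ⊢
    filter_upwards [hw, hG3 γ hγ F h1 (by
      filter_upwards [hw, h2] with s h3 h4
      rwa [h3] at h4)] with s h3 h4
    rwa [h3]
  have hX : ∀ γ ∈ G, ∃ u : GD (AB a b) q, mx u.1 = M4.CL.zr γ.1 := fun γ hγ => by
    obtain ⟨β, hβ⟩ := lv_eq (hG2 γ hγ)
    exact exists_gd (a := a) (b := b) (β := β) one_pos (one_dvd q)
      (by rw [Nat.cast_one]; exact (sim_zr_iff _).2 γ.2) hβ (hG1.1 γ hγ).1 (hG1.1 γ hγ).2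
  obtain ⟨e0, he0⟩ := exists_open Φ h2 hG1.1 hG1.2 hq.pos.ne'
  obtain ⟨n0, hn0⟩ := hC'.le_del (x ξ0) hT hX fun k γ β h => he0 k γ β (com_of h)
  have hAF : ∀ (k : ℕ) (φ : MvPolynomial (Fin (d + 1)) ℂ), φ.IsHomogeneous (8 * k) →
      res _ (lift k (evY y φ)) ∈ S.A k := fun k φ hφ => by
    rw [hA]
    exact mem_resF.2 ⟨_, lift_mem_fil le_rfl ⟨φ, hφ, rfl⟩, rfl⟩
  obtain ⟨k, φ, hφP, hφ0, hφ⟩ := exists_form hH (by omega)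
  obtain ⟨μ0, hμ0, hs0⟩ := mx_sim (x ξ0).1
  obtain ⟨u, hu⟩ : ∃ u : CX (AB a b), evY y φ u.1.t ≠ 0 := by
    by_contra h
    exact hφ0 (hy.2 _ φ hφ fun τ hτ => by_contra fun h' =>
      h ⟨⟨⟨1, τ, hτ.1⟩, cx_of hP hτ⟩, by rwa [evY_apply]⟩)
  obtain ⟨j, hj⟩ := con_bounded Φ hC' hq.pos.ne' hn0
    (con_irr hC' (x ξ0) hT hX (Φ.comm ((x ξ0).2 _ (Or.inl rfl))) hG1.2) (k := k)
    (f := slash k (mx (x ξ0).1) (evY y φ))
    (x_slash_mem hs0 hμ0 ((mx_cong _).isQ hq.pos.ne') (evY_mem y hφ))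
    (x := (x ξ0)⁻¹ • u)
    (fun h0 => hu ((congrArg (fun w : CX (AB a b) => evY y φ w.1.t)
      (smul_inv_smul (x ξ0) u)).symm.trans ((slash_zero _ k _ _).1 h0)))
    (by
      rw [← sl_lift', ← sl_res]
      exact Setup.MS.sl ⟨S.A_le k (hAF k φ hφ), 0,
        fun h hh => S.A_inv (hAF k φ hφ) h (S.le 0 hh)⟩ _)
    (by
      rw [← sl_lift', ← sl_res]
      exact (key' ξ0 hξ0 k φ hφ).2 hφP)
  obtain ⟨Φ, hΦ1, hΦ2, hΦ3⟩ := hC'.forms hq hVi hj (D := w + 1) (by simp)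
  have hsep : ∀ ξ ∈ X, ∀ ξ' ∈ X, ξ ≠ ξ' → ∃ φ : MvPolynomial (Fin (d + 1)) ℂ, φ.IsHomogeneous (8 * 1) ∧
      res _ (lift 1 (evY y φ)) (x ξ • S.a) ≠ res _ (lift 1 (evY y φ)) (x ξ' • S.a) :=
    fun ξ h ξ' h' hne => by
    obtain ⟨φ, h1, h2, h3⟩ := exists_sep fun t e => hne (hS ξ h ξ' h' t e)
    refine ⟨φ, h1, ?_⟩
    rw [(hpt ξ h φ).2 h2]
    exact fun e => h3 ((hpt ξ' h' φ).1 e.symm)
  have hcard : (X.image x).card = X.card := Finset.card_image_of_injOn fun ξ h ξ' h' e => by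
    by_contra hne
    obtain ⟨φ, -, h2⟩ := hsep ξ h ξ' h' hne
    exact h2 (by rw [e])
  have main := hC'.count hn0 (X.image x) Φ hΦ1 hΦ2 hΦ3
    (fun g1 h1 g2 h2 hne => by
      obtain ⟨ξ, h, rfl⟩ := Finset.mem_image.1 h1
      obtain ⟨ξ', h', rfl⟩ := Finset.mem_image.1 h2
      obtain ⟨φ, h3, h4⟩ := hsep ξ h ξ' h' fun e => hne (by rw [e])
      exact ⟨1, _, S.A_le 1 (hAF 1 φ h3), S.A_inv (hAF 1 φ h3), h4⟩)
    (g0 := x ξ0)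
    (fun g1 h1 k r hr h0 => by
      obtain ⟨ξ, h, rfl⟩ := Finset.mem_image.1 h1
      rw [hA] at hr
      obtain ⟨r', hr', rfl⟩ := mem_resF.1 hr
      obtain ⟨f, hf, rfl⟩ := mem_fil.1 hr'
      rw [sl_res, hC'.I, sl_sum_mem_I] at h0 ⊢
      intro i hi
      obtain ⟨ψ, hψ, e⟩ := hf i
      have := h0 i hi
      rw [← e] at this ⊢
      exact (key ξ h _ ψ hψ).2 ((key ξ0 hξ0 _ ψ hψ).1 this))
    (del := del) (s := 8) (c := e)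
    (fun k => by
      rw [hA, resF, ← Submodule.map_comp]
      exact finrank_fil y _ P (fun i φ h1 h2 =>
        (Submodule.Quotient.mk_eq_zero _).2 ((key' ξ0 hξ0 i φ h2).2 h1)) hb k)
  rw [hcard, hN] at main
  refine main.trans ?_
  rw [mul_right_comm]
  exact Nat.mul_le_mul_right _ (Nat.mul_le_mul_left _ (Nat.pow_le_pow_right (by norm_num) hd))

end MG.CL
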